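import Pool.Agent.Helper42.QD.Stmts

/-! # MP_75837a_al, qd_mods: module ALK2 -/

set_option autoImplicit false

namespace Pool.Agent.Helper42.QD

open Polynomial

theorem st_ALK2 : ST_ALK2 := by
  intro E _ _ s hs w b hw hb
  let G : Subgroup (E ≃+* E) := Subgroup.zpowers s
  have hfin : Finite (E ≃+* E) :=
    Finite.of_injective (fun f : E ≃+* E => (f : E → E)) DFunLike.coe_injective
  have : Fintype G := Fintype.ofFinite G
  let F := FixedPoints.subfield G E
  have hcard : Module.finrank F E = orderOf s := by
    have h1 := FixedPoints.finrank_eq_card G E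
    rw [h1, Fintype.card_eq_nat_card]
    exact Nat.card_zpowers s
  have hfix : ∀ x : E, s x = x → x ∈ F := by
    intro x hx g
    obtain ⟨g, hg⟩ := g
    obtain ⟨k, rfl⟩ := hg
    show (s ^ k) x = x
    have h2 : s ∈ MulAction.stabilizer (E ≃+* E) x := hx
    exact (MulAction.stabilizer (E ≃+* E) x).zpow_mem h2 k
  let w' : F := ⟨w, hfix w hw⟩
  let b' : F := ⟨b, hfix b hb⟩
  let p : F[X] := X ^ 2 - C w' * X - C b'
  have hpe : p = C 1 * X ^ 2 + C (-w') * X + C (-b') := by
    simp only [p, C_1, C_neg]
    ring
  have hdeg : p.natDegree = 2 := by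
    rw [hpe]
    exact natDegree_quadratic one_ne_zero
  have hmonic : p.Monic := by
    have h3 : p.leadingCoeff = 1 := by
      rw [hpe]
      exact leadingCoeff_quadratic one_ne_zero
    exact h3
  have hev : ∀ (K : Type) [Field K] [Algebra F K] (r : K), aeval r p = 0 →
      r * r = algebraMap F K w' * r + algebraMap F K b' := by
    intro K _ _ r hr
    simp only [p, map_sub, map_mul, map_pow, aeval_X, aeval_C] at hr
    linear_combination hr
  by_cases hroot : ∃ r : F, p.IsRoot r
  · obtain ⟨r, hr⟩ := hroot
    refine ⟨(r : E), ?_⟩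
    have h4 := hev F r (by
      rw [coe_aeval_eq_eval]
      exact hr)
    have h5 := congrArg (fun z : F => (z : E)) h4
    exact h5
  · push Not at hroot
    have hirr : Irreducible p := by
      rw [hmonic.irreducible_iff_roots_eq_zero_of_degree_le_three (by omega) (by omega)]
      rw [Multiset.eq_zero_iff_forall_notMem]
      intro r hr
      exact hroot r ((mem_roots hmonic.ne_zero).1 hr)
    have : Fact (Irreducible p) := ⟨hirr⟩
    have hfr : Module.finrank F (AdjoinRoot p) = 2 := by
      rw [(AdjoinRoot.powerBasis hmonic.ne_zero).finrank, AdjoinRoot.powerBasis_dim, hdeg]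
    have hdvd : Module.finrank F (AdjoinRoot p) ∣ Module.finrank F E := by
      rw [hfr, hcard]
      exact hs.two_dvd
    have : Module.Finite F (AdjoinRoot p) := (AdjoinRoot.powerBasis hmonic.ne_zero).finite
    have : Finite (AdjoinRoot p) := Module.finite_of_finite F
    obtain ⟨φ⟩ := FiniteField.nonempty_algHom_of_finrank_dvd hdvd
    refine ⟨φ (AdjoinRoot.root p), ?_⟩
    have h6 := hev E (φ (AdjoinRoot.root p)) (by
      rw [aeval_algHom_apply, AdjoinRoot.aeval_eq, AdjoinRoot.mk_self, map_zero])
    exact h6

end Pool.Agent.Helper42.QD
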