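import Pool.Agent.Helper42.QC.Defs

/-! # MP_75837a_al, qd_mods: module EXT -/

set_option autoImplicit false

namespace Pool.Agent.Helper42.QC

theorem ext_root (n : ℤ) (hn : n ≠ 0) (a : ℂˣ) : ∃ b : ℂˣ, b ^ n = a := by
  have hpos : 0 < n.natAbs := Int.natAbs_pos.2 hn
  obtain ⟨z, hz⟩ := IsAlgClosed.exists_pow_nat_eq (a : ℂ) hpos
  have hz0 : z ≠ 0 := by
    rintro rfl
    rw [zero_pow hpos.ne'] at hz
    exact a.ne_zero hz.symm
  have hb : (Units.mk0 z hz0) ^ n.natAbs = a := Units.ext (by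
    rw [Units.val_pow_eq_pow_val, Units.val_mk0]
    exact hz)
  rcases Int.natAbs_eq n with h | h
  · refine ⟨Units.mk0 z hz0, ?_⟩
    rw [h, zpow_natCast]
    exact hb
  · refine ⟨(Units.mk0 z hz0)⁻¹, ?_⟩
    rw [h, zpow_neg, zpow_natCast, inv_pow, inv_inv]
    exact hb

theorem st_EXT : ST_EXT := by
  intro G _ H f
  let _ : DivisibleBy (Additive ℂˣ) ℤ := divisibleByOfSMulRightSurj (Additive ℂˣ) ℤ
    (fun {n} hn a => by
      obtain ⟨b, hb⟩ := ext_root n hn a.toMul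
      exact ⟨Additive.ofMul b, congrArg Additive.ofMul hb⟩)
  obtain ⟨F, hF⟩ := (Module.Baer.of_divisible (Additive ℂˣ)).extension_property_addMonoidHom
    (MonoidHom.toAdditive H.subtype) (fun x y h => Subtype.ext h) (MonoidHom.toAdditive f)
  refine ⟨MonoidHom.toAdditive.symm F, fun h => ?_⟩
  have h1 := DFunLike.congr_fun hF (Additive.ofMul h)
  exact h1

end Pool.Agent.Helper42.QC
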