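import Pool.Agent.Helper42.QC.Defs

/-! # MP_75837a_al, qd_mods: module TRC -/

set_option autoImplicit false

namespace Pool.Agent.Helper42.QC

open Pool.Agent.Helper42.QD

variable {K D : Type} [Field K] [DivisionRing D]

theorem trc_coe (c : CD K D) (y : D) :
    ((c.trd y : c.F) : K) = ∑ j ∈ Finset.range c.d, c.sig^[j] (c.co y 0) := rfl

/-- the orbit sum of `sig z` is the orbit sum of `z` -/
theorem trc_shift (c : CD K D) (z : K) :
    ∑ j ∈ Finset.range c.d, c.sig^[j] (c.sig z) = ∑ j ∈ Finset.range c.d, c.sig^[j] z := by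
  have h1 := c.orb z
  rw [map_sum] at h1
  rw [← h1]
  refine Finset.sum_congr rfl fun j _ => ?_
  rw [← Function.iterate_succ_apply, Function.iterate_succ_apply']

theorem trc_iter_add (c : CD K D) (j : ℕ) (x y : K) :
    c.sig^[j] (x + y) = c.sig^[j] x + c.sig^[j] y := by
  induction j with
  | zero => rfl
  | succ j ih => rw [Function.iterate_succ_apply', Function.iterate_succ_apply',
      Function.iterate_succ_apply', ih, map_add]

theorem st_TRC (hC : ST_CO1) : ST_TRC := by
  intro K D _ _ c x y
  obtain ⟨hadd, -, hl, hr, -, -, hT0, -, hT0'⟩ := hC K D c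
  have tadd : ∀ a b : D, c.trd (a + b) = c.trd a + c.trd b := by
    intro a b
    apply Subtype.ext
    show _ = ((c.trd a : c.F) : K) + ((c.trd b : c.F) : K)
    rw [trc_coe, trc_coe, trc_coe, ← Finset.sum_add_distrib]
    refine Finset.sum_congr rfl fun j _ => ?_
    rw [hadd, trc_iter_add]
  have hmulc : ∀ a b : D, (∀ x, c.trd (x * a) = c.trd (a * x)) →
      (∀ x, c.trd (x * b) = c.trd (b * x)) → ∀ x, c.trd (x * (a * b)) = c.trd (a * b * x) := by
    intro a b ha hb x
    rw [← mul_assoc, hb, ← mul_assoc, ha, ← mul_assoc]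
  have haddc : ∀ a b : D, (∀ x, c.trd (x * a) = c.trd (a * x)) →
      (∀ x, c.trd (x * b) = c.trd (b * x)) → ∀ x, c.trd (x * (a + b)) = c.trd ((a + b) * x) := by
    intro a b ha hb x
    rw [mul_add, add_mul, tadd, tadd, ha, hb]
  have hemb : ∀ (a : K) (x : D), c.trd (x * c.emb a) = c.trd (c.emb a * x) := by
    intro a x
    apply Subtype.ext
    rw [trc_coe, trc_coe, hl, hr]
    simp only [Function.iterate_zero, id, mul_comm]
  have hT : ∀ x : D, c.trd (x * c.T) = c.trd (c.T * x) := by
    intro x
    apply Subtype.ext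
    rw [trc_coe, trc_coe, hT0, hT0']
    have e : c.sig (c.co x (c.d - 1)) * c.pi = c.sig (c.co x (c.d - 1) * c.pi) := by
      rw [map_mul, c.sigpi]
    rw [e, trc_shift]
  have hpow : ∀ (i : ℕ) (x : D), c.trd (x * c.T ^ i) = c.trd (c.T ^ i * x) := by
    intro i
    induction i with
    | zero => intro x; rw [pow_zero, mul_one, one_mul]
    | succ i ih =>
      rw [pow_succ]
      exact hmulc _ _ ih hT
  have hsum : ∀ (s : Finset ℕ) (x : D),
      c.trd (x * ∑ i ∈ s, c.emb (c.co y i) * c.T ^ i) =
        c.trd ((∑ i ∈ s, c.emb (c.co y i) * c.T ^ i) * x) := by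
    intro s
    induction s using Finset.induction_on with
    | empty =>
      intro x
      rw [Finset.sum_empty, mul_zero, zero_mul]
    | insert i s hi ih =>
      intro x
      rw [Finset.sum_insert hi]
      exact haddc _ _ (hmulc _ _ (hemb _) (hpow i)) ih x
  have h := hsum (Finset.range c.d) x
  rw [← c.co_spec y] at h
  exact h

end Pool.Agent.Helper42.QC
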